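import Mathlib

set_option autoImplicit false

namespace Pool.Agent.Results.MP_c3fc26_co.Counter

open SimpleGraph

/-- every member of S has a private neighbour in its closed neighbourhood -/
def Irredundant {V : Type} (G : SimpleGraph V) (S : Set V) : Prop :=
  ∀ v ∈ S, ∃ w, (w = v ∨ G.Adj v w) ∧ ∀ u ∈ S, u ≠ v → ¬ (w = u ∨ G.Adj u w)

/-- c is a proper colouring with k nonempty classes whose rainbow committees are irredundant -/
def IRC {V : Type} (G : SimpleGraph V) (k : ℕ) (c : V → Fin k) : Prop :=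
  Function.Surjective c ∧ (∀ u v, G.Adj u v → c u ≠ c v) ∧
    ∀ f : Fin k → V, (∀ i, c (f i) = i) → Irredundant G (Set.range f)

def nbr : Fin 16 → ℕ :=
  ![6, 105, 105, 34822, 96, 150, 150, 34912, 1536, 26880, 26880, 1672, 24576, 38400, 38400, 24712]

def adj (a b : Fin 16) : Bool := (nbr a).testBit b.val

def G : SimpleGraph (Fin 16) where
  Adj a b := adj a b = true
  symm := ⟨by decide⟩
  loopless := ⟨by decide⟩

instance : DecidableRel G.Adj := fun a b => inferInstanceAs (Decidable (adj a b = true))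

def c4 : Fin 16 → Fin 4 := ![0, 1, 1, 0, 1, 0, 0, 1, 2, 3, 3, 2, 3, 2, 2, 3]

def c3 : Fin 16 → Fin 3 := ![0, 1, 1, 0, 0, 2, 2, 0, 0, 1, 1, 2, 0, 2, 2, 1]

def priv (v a b c : Fin 16) : Prop :=
  ∃ w, (w = v ∨ adj v w = true) ∧ ¬ (w = a ∨ adj a w = true) ∧ ¬ (w = b ∨ adj b w = true) ∧
    ¬ (w = c ∨ adj c w = true)

instance (v a b c : Fin 16) : Decidable (priv v a b c) := by unfold priv; infer_instance

lemma k1 : ∀ a, c4 a = 0 → ∀ b, c4 b = 1 → ∀ c, c4 c = 2 → ∀ d, c4 d = 3 →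
    priv a b c d ∧ priv b a c d ∧ priv c a b d ∧ priv d a b c := by decide +kernel

lemma irc4 : IRC G 4 c4 := by
  refine ⟨by decide, by decide, fun f hf => ?_⟩
  obtain ⟨h0, h1, h2, h3⟩ := k1 _ (hf 0) _ (hf 1) _ (hf 2) _ (hf 3)
  rintro _ ⟨i, rfl⟩
  fin_cases i
  · obtain ⟨w, a, b⟩ := h0
    refine ⟨w, a, ?_⟩
    rintro _ ⟨j, rfl⟩ hj
    fin_cases j
    exacts [absurd rfl hj, b.1, b.2.1, b.2.2]
  · obtain ⟨w, a, b⟩ := h1
    refine ⟨w, a, ?_⟩
    rintro _ ⟨j, rfl⟩ hj
    fin_cases j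
    exacts [b.1, absurd rfl hj, b.2.1, b.2.2]
  · obtain ⟨w, a, b⟩ := h2
    refine ⟨w, a, ?_⟩
    rintro _ ⟨j, rfl⟩ hj
    fin_cases j
    exacts [b.1, b.2.1, absurd rfl hj, b.2.2]
  · obtain ⟨w, a, b⟩ := h3
    refine ⟨w, a, ?_⟩
    rintro _ ⟨j, rfl⟩ hj
    fin_cases j
    exacts [b.1, b.2.1, b.2.2, absurd rfl hj]

lemma force {k : ℕ} {c : Fin 16 → Fin k} (h : IRC G k c) (x y w : Fin 16) (h1 : G.Adj x y)
    (h2 : G.Adj y w) (h3 : ¬ priv x y w w) : c w = c x := by
  by_contra hc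
  have a1 := h.2.1 _ _ h1
  have a2 := h.2.1 _ _ h2
  let f : Fin k → Fin 16 := fun i =>
    if i = c x then x else if i = c y then y else if i = c w then w else (h.1 i).choose
  have hf : ∀ i, c (f i) = i := fun i => by
    simp only [f]
    split_ifs with e1 e2 e3
    exacts [e1.symm, e2.symm, e3.symm, (h.1 i).choose_spec]
  have fx : f (c x) = x := by simp [f]
  have fy : f (c y) = y := by simp [f, a1.symm]
  have fw : f (c w) = w := by simp [f, hc, a2.symm]
  obtain ⟨z, b1, b2⟩ := h.2.2 f hf x ⟨_, fx⟩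
  have b3 := b2 w ⟨_, fw⟩ fun e => hc (by rw [e])
  exact h3 ⟨z, b1, b2 y ⟨_, fy⟩ h1.ne', b3, b3⟩

lemma four {k : ℕ} {c : Fin 16 → Fin k} (h : IRC G k c) : 4 ≤ k := by
  have e1 := force h 0 1 3 (by decide) (by decide) (by decide)
  have e2 := force h 0 1 5 (by decide) (by decide) (by decide)
  have e3 := force h 4 5 7 (by decide) (by decide) (by decide)
  have e4 := force h 4 5 1 (by decide) (by decide) (by decide)
  have e5 := force h 8 9 11 (by decide) (by decide) (by decide)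
  have e6 := force h 8 9 13 (by decide) (by decide) (by decide)
  have e7 := force h 12 13 15 (by decide) (by decide) (by decide)
  have e8 := force h 12 13 9 (by decide) (by decide) (by decide)
  have n1 := h.2.1 1 5 (by decide)
  have n2 := h.2.1 9 13 (by decide)
  have n3 := h.2.1 3 11 (by decide)
  have n4 := h.2.1 3 15 (by decide)
  have n5 := h.2.1 7 11 (by decide)
  have n6 := h.2.1 7 15 (by decide)
  have := (c 3).2
  have := (c 7).2
  have := (c 11).2
  have := (c 15).2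
  simp only [Fin.ext_iff, ne_eq] at *
  omega

lemma conn : G.Connected := by
  have a : ∀ d : Fin 16, d = 3 ∨ G.Adj 3 d ∨ ∃ x, G.Adj 3 x ∧ (G.Adj x d ∨ ∃ y, G.Adj x y ∧
    G.Adj y d) := by decide +kernel
  refine (connected_iff_exists_forall_reachable G).2 ⟨3, fun d => ?_⟩
  rcases a d with rfl | h1 | ⟨x, h1, h2 | ⟨y, h2, h3⟩⟩
  exacts [.rfl, h1.reachable, h1.reachable.trans h2.reachable,
    (h1.reachable.trans h2.reachable).trans h3.reachable]

theorem result : ∃ (V : Type) (_ : Fintype V) (G : SimpleGraph V), G.Connected ∧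
    (∃ (k : ℕ) (c : V → Fin k), IRC G k c) ∧
    ∀ (k : ℕ) (c : V → Fin k), IRC G k c → G.chromaticNumber < k := by
  refine ⟨Fin 16, inferInstance, G, conn, ⟨4, c4, irc4⟩, fun k c h => ?_⟩
  have h3 : G.Colorable 3 := ⟨Coloring.mk c3 (by decide)⟩
  refine h3.chromaticNumber_le.trans_lt ?_
  exact_mod_cast four h

end Pool.Agent.Results.MP_c3fc26_co.Counter
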